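import Pool.Agent.H742Z.GP.Defs2

/-!
The positive tail of greedy lattice paths.
-/

set_option autoImplicit false

open scoped ENNReal
open MeasureTheory ProbabilityTheory Filter Topology Set

namespace Pool.Agent.H742Z.GP

universe u

namespace Upper

lemma ofReal_le_tsum (x : ℝ) (J : ℕ) :
    ENNReal.ofReal (x - J) ≤
      ∑' k : ℕ, (if ((k + J : ℕ) : ℝ) < x then (1 : ℝ≥0∞) else 0) := by
  set m := ⌈x - J⌉₊ with hm
  calc ENNReal.ofReal (x - J) ≤ ENNReal.ofReal (m : ℝ) :=
        ENNReal.ofReal_le_ofReal (Nat.le_ceil _)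
    _ = ∑ k ∈ Finset.range m, (if ((k + J : ℕ) : ℝ) < x then (1 : ℝ≥0∞) else 0) := by
        rw [Finset.sum_congr rfl (g := fun _ => (1 : ℝ≥0∞))]
        · simp
        · intro k hk
          have hk' : (k : ℝ) < x - J := Nat.lt_ceil.1 (Finset.mem_range.1 hk)
          rw [if_pos]
          push_cast
          linarith
    _ ≤ _ := ENNReal.sum_le_tsum _

lemma list_sum_tsum {α : Type} (l : List α) (f : ℕ → α → ℝ≥0∞) :
    (l.map fun v => ∑' k, f k v).sum = ∑' k, (l.map (f k)).sum := by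
  induction l with
  | nil => simp
  | cons a l ih =>
    simp only [List.map_cons, List.sum_cons]
    rw [ih, ENNReal.tsum_add]

lemma GE_le_tsum {d : ℕ} (n : ℕ) (x : V d) (w : V d → ℝ≥0∞) (f : ℕ → V d → ℝ≥0∞)
    (h : ∀ v, w v ≤ ∑' k, f k v) : GE n x w ≤ ∑' k, GE n x (f k) := by
  refine GE_le fun l hl => ?_
  calc (l.map w).sum ≤ (l.map fun v => ∑' k, f k v).sum :=
        List.sum_le_sum fun v _ => h v
    _ = ∑' k, (l.map (f k)).sum := list_sum_tsum l f
    _ ≤ _ := ENNReal.tsum_le_tsum fun k => le_GE hl _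

lemma summable_log {β : ℝ} (hβ : 1 < β) :
    Summable fun k : ℕ => 1 / ((k : ℝ) * Real.log k ^ β) := by
  rw [← summable_condensed_iff_of_eventually_nonneg]
  · have hs : Summable fun k : ℕ => (1 / Real.log 2 ^ β) * (1 / (k : ℝ) ^ β) :=
      (Real.summable_one_div_nat_rpow.2 hβ).mul_left _
    refine hs.congr fun k => ?_
    have h2 : 0 < Real.log 2 := Real.log_pos (by norm_num)
    push_cast
    rw [Real.log_pow, Real.mul_rpow (Nat.cast_nonneg k) h2.le]
    have : (2 : ℝ) ^ k ≠ 0 := by positivity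
    rw [one_div_mul_one_div, mul_one_div, mul_comm (Real.log 2 ^ β), one_div, div_mul_eq_div_div,
      div_self this, one_div]
  · refine Filter.Eventually.of_forall fun k => ?_
    have := Real.log_natCast_nonneg k
    simp only [Pi.zero_apply]
    positivity
  · filter_upwards [eventually_ge_atTop 2] with k hk
    have hk' : (2 : ℝ) ≤ k := by exact_mod_cast hk
    have hl : 0 < Real.log k := Real.log_pos (by linarith)
    have hle : Real.log k ≤ Real.log ((k + 1 : ℕ) : ℝ) :=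
      Real.log_le_log (by linarith) (by push_cast; linarith)
    refine one_div_le_one_div_of_le (by positivity) ?_
    refine mul_le_mul (by push_cast; linarith) (Real.rpow_le_rpow hl.le hle (by linarith))
      (by positivity) (by positivity)

lemma markov {d : ℕ} (hd : 1 ≤ d) {Ω : Type u} [MeasurableSpace Ω] (P : Measure Ω)
    (Y : Ω → ℝ) (hY : Measurable Y) {α : ℝ} (hα : 0 < α) {B : ℝ} (hB : 1 ≤ B)
    (hA : ∫⁻ ω, ENNReal.ofReal
      (max (Y ω) 0 ^ d * max (Real.log (max (Y ω) 0)) 0 ^ ((d : ℝ) + α)) ∂P ≤ ENNReal.ofReal B)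
    (k : ℕ) (hk : 2 ≤ k) :
    P {ω | (k : ℝ) < Y ω} ≤
      ENNReal.ofReal (B * (1 / ((k : ℝ) * Real.log k ^ (1 + α / d)))) ^ d := by
  have hk' : (2 : ℝ) ≤ k := by exact_mod_cast hk
  have hl : 0 < Real.log k := Real.log_pos (by linarith)
  have hd' : (0 : ℝ) < d := by exact_mod_cast hd
  set c : ℝ := (k : ℝ) ^ d * Real.log k ^ ((d : ℝ) + α) with hc
  have hcpos : 0 < c := by positivity
  have hmeas : Measurable fun ω => ENNReal.ofReal
      (max (Y ω) 0 ^ d * max (Real.log (max (Y ω) 0)) 0 ^ ((d : ℝ) + α)) := by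
    fun_prop
  have h1 : P {ω | (k : ℝ) < Y ω} ≤ P {ω | ENNReal.ofReal c ≤ ENNReal.ofReal
      (max (Y ω) 0 ^ d * max (Real.log (max (Y ω) 0)) 0 ^ ((d : ℝ) + α))} := by
    refine measure_mono fun ω hω => ?_
    have hω' : (k : ℝ) < Y ω := hω
    refine ENNReal.ofReal_le_ofReal ?_
    have hmx : max (Y ω) 0 = Y ω := max_eq_left (by linarith)
    rw [hmx]
    have hlog : Real.log k ≤ Real.log (Y ω) := Real.log_le_log (by linarith) hω'.le
    refine mul_le_mul (pow_le_pow_left₀ (by linarith) hω'.le d)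
      (Real.rpow_le_rpow hl.le (hlog.trans (le_max_left _ _)) (by linarith)) (by positivity) ?_
    exact pow_nonneg (by linarith) d
  have h2 := meas_ge_le_lintegral_div (μ := P) hmeas.aemeasurable
    (ε := ENNReal.ofReal c) (by simpa using hcpos) ENNReal.ofReal_ne_top
  refine h1.trans (h2.trans ?_)
  refine (ENNReal.div_le_div_right hA _).trans ?_
  rw [← ENNReal.ofReal_div_of_pos hcpos, ← ENNReal.ofReal_pow (by positivity)]
  refine ENNReal.ofReal_le_ofReal ?_
  have e : ((k : ℝ) * Real.log k ^ (1 + α / d)) ^ d = c := by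
    rw [mul_pow, ← Real.rpow_natCast (Real.log k ^ (1 + α / d)), ← Real.rpow_mul hl.le, hc]
    congr 2
    field_simp
  rw [mul_pow, one_div_pow, e, mul_one_div]
  refine div_le_div_of_nonneg_right ?_ hcpos.le
  exact le_self_pow₀ hB (by omega)

end Upper

theorem upper_tail {d : ℕ} (hd : 1 ≤ d) (hBG : BG.{u} d) {Ω : Type u} [MeasurableSpace Ω]
    (P : Measure Ω) [IsProbabilityMeasure P] (X : V d → Ω → ℝ) (hm : ∀ v, Measurable (X v))
    (hi : iIndepFun X P) (hid : ∀ v, IdentDistrib (X v) (X 0) P P)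
    (hA : ∃ α : ℝ, 0 < α ∧ ∫⁻ ω, ENNReal.ofReal
      (max (X 0 ω) 0 ^ d * max (Real.log (max (X 0 ω) 0)) 0 ^ ((d : ℝ) + α)) ∂P < ∞)
    (ε : ℝ≥0∞) (hε : 0 < ε) :
    ∃ J : ℕ, ∀ n : ℕ, ∫⁻ ω, GE n 0 (fun v => ENNReal.ofReal (X v ω - J)) ∂P ≤ ε * n := by
  obtain ⟨C, hC, hBG⟩ := hBG
  obtain ⟨α, hα, hA⟩ := hA
  have hd' : (0 : ℝ) < d := by exact_mod_cast hd
  set A := ∫⁻ ω, ENNReal.ofReal
      (max (X 0 ω) 0 ^ d * max (Real.log (max (X 0 ω) 0)) 0 ^ ((d : ℝ) + α)) ∂P with hAdef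
  set B : ℝ := A.toReal + 1 with hB
  have hB1 : 1 ≤ B := by have := ENNReal.toReal_nonneg (a := A); linarith
  have hAB : A ≤ ENNReal.ofReal B := by
    calc A = ENNReal.ofReal A.toReal := (ENNReal.ofReal_toReal hA.ne).symm
      _ ≤ _ := ENNReal.ofReal_le_ofReal (by linarith)
  set r : ℕ → ℝ≥0∞ := fun k =>
    ENNReal.ofReal (B * (1 / ((k : ℝ) * Real.log k ^ (1 + α / d)))) with hr
  have hsum : Summable fun k : ℕ => B * (1 / ((k : ℝ) * Real.log k ^ (1 + α / d))) :=
    (Upper.summable_log (by have := div_pos hα hd'; linarith)).mul_left B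
  have hfin : ∑' k, r k ≠ ∞ := hsum.tsum_ofReal_ne_top
  have htend : Tendsto (fun J => C * ∑' k, r (k + J)) atTop (𝓝 0) := by
    have := ENNReal.Tendsto.const_mul (a := C) (ENNReal.tendsto_sum_nat_add r hfin) (Or.inr hC)
    simpa using this
  obtain ⟨J, hJ, hJ2⟩ := ((htend.eventually (ge_mem_nhds hε)).and (eventually_ge_atTop 2)).exists
  refine ⟨J, fun n => ?_⟩
  set E : ℕ → V d → Set Ω := fun k v => {ω | ((k + J : ℕ) : ℝ) < X v ω} with hE
  have hEm : ∀ k v, MeasurableSet (E k v) := fun k v =>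
    measurableSet_lt measurable_const (hm v)
  have hEi : ∀ k, iIndepSet (E k) P := by
    intro k
    rw [iIndepSet_iff_meas_biInter (hEm k)]
    intro s
    exact hi.measure_inter_preimage_eq_mul s (sets := fun _ => Ioi ((k + J : ℕ) : ℝ))
      fun _ _ => measurableSet_Ioi
  have hEP : ∀ k v, P (E k v) ≤ r (k + J) ^ d := by
    intro k v
    have h1 : P (E k v) = P (E k 0) :=
      (hid v).measure_mem_eq (s := Ioi ((k + J : ℕ) : ℝ)) measurableSet_Ioi
    rw [h1]
    exact Upper.markov hd P (X 0) (hm 0) hα hB1 hAB (k + J) (by omega)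
  calc ∫⁻ ω, GE n 0 (fun v => ENNReal.ofReal (X v ω - J)) ∂P
      ≤ ∫⁻ ω, ∑' k, GE n 0 (fun v => (E k v).indicator 1 ω) ∂P := by
        refine lintegral_mono fun ω => ?_
        refine Upper.GE_le_tsum n 0 _ (fun k v => (E k v).indicator 1 ω) fun v => ?_
        refine (Upper.ofReal_le_tsum (X v ω) J).trans (le_of_eq ?_)
        refine tsum_congr fun k => ?_
        simp only [hE, Set.indicator_apply, Set.mem_ofPred_eq, Pi.one_apply]
    _ = ∑' k, ∫⁻ ω, GE n 0 (fun v => (E k v).indicator 1 ω) ∂P := by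
        refine lintegral_tsum fun k => ?_
        exact (measurable_GE n 0 (fun v ω => (E k v).indicator 1 ω)
          fun v => measurable_const.indicator (hEm k v)).aemeasurable
    _ ≤ ∑' k, C * n * r (k + J) :=
        ENNReal.tsum_le_tsum fun k => hBG Ω P (E k) (hEm k) (hEi k) _ (hEP k) n
    _ = (C * ∑' k, r (k + J)) * n := by
        rw [ENNReal.tsum_mul_left]; ring
    _ ≤ ε * n := by gcongr

end Pool.Agent.H742Z.GP
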